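import Mathlib

/-!
Kummer covers of projective space along arrangements which are stable under reflections:
rationality and unirationality.
-/

set_option autoImplicit false

namespace Pool.Agent.U431.RA.Uni

variable {k : Type} [Field k]

/-- Linear forms in `n + 1` variables. -/
abbrev Form (k : Type) [Field k] (n : ℕ) : Type := (Fin (n + 1) → k) →ₗ[k] k

/-- The arrangement of the `r` different hyperplanes `ℓ i = 0` with the intersection `0` is stable
under reflections: for each `i` there is a linear map `v ↦ v - ℓ i (v) a`, `ℓ i (a) ≠ 0`, which maps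
each hyperplane `ℓ j = 0` into a hyperplane `ℓ h = 0`. -/
structure ReflectionArrangement {n r : ℕ} (ℓ : Fin r → Form k n) : Prop where
  distinct : ∀ i j, i ≠ j → ∀ c : k, ℓ i ≠ c • ℓ j
  essential : ∀ v, (∀ i, ℓ i v = 0) → v = 0
  refl : ∀ i, ∃ a, ℓ i a ≠ 0 ∧ ∀ j, ∃ h, ∃ c : k, c ≠ 0 ∧ ℓ j - ℓ j a • ℓ i = c • ℓ h

section

variable {K : Type} [Field K] [Algebra k K]

/-- The value of a linear form at a point with coordinates in `K`. -/
def val {n : ℕ} (φ : Form k n) (x : Fin (n + 1) → K) : K :=
  ∑ t, algebraMap k K (φ (Pi.single t 1)) * x t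

/-- `K` is the function field of an irreducible component of the Kummer cover of projective
`n`-space with the equations `y j ^ m = ℓ j (x)`: `x`, `y` are homogeneous coordinates of its generic
point, the quotients `y i / y j` generate `K`, the dimension is `n`, and the point `x` is in no
hyperplane which is defined over `k`. -/
structure FunctionField {n r : ℕ} (ℓ : Fin r → Form k n) (m : ℕ) (x : Fin (n + 1) → K)
    (y : Fin r → K) : Prop where
  eqn : ∀ j, y j ^ m = val (ℓ j) x
  gen : IntermediateField.adjoin k {z : K | ∃ i j, z = y i / y j} = ⊤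
  dim : Algebra.trdeg k K = n
  generic : ∀ φ : Form k n, val φ x = 0 → φ = 0

end

/-- `K` is a field of rational functions over `k`: it is generated by finitely many algebraically
independent elements. -/
def Rational (k K : Type) [Field k] [Field K] [Algebra k K] : Prop :=
  ∃ (σ : Type) (_ : Finite σ) (t : σ → K), AlgebraicIndependent k t ∧
    IntermediateField.adjoin k (Set.range t) = ⊤

/-- `K` is contained in a field of rational functions over `k`. -/
def Unirational (k K : Type) [Field k] [Field K] [Algebra k K] : Prop :=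
  ∃ (F : Type) (_ : Field F) (_ : Algebra k F), Rational k F ∧ Nonempty (K →ₐ[k] F)

variable {n r m : ℕ} {ℓ : Fin r → Form k n} {K : Type} [Field K] [Algebra k K]
  {x : Fin (n + 1) → K} {y : Fin r → K}

theorem val_sub (φ ψ : Form k n) (x : Fin (n + 1) → K) : val (φ - ψ) x = val φ x - val ψ x := by
  unfold val
  rw [← Finset.sum_sub_distrib]
  refine Finset.sum_congr rfl fun t _ => ?_
  rw [LinearMap.sub_apply, map_sub]
  ring

theorem val_smul (c : k) (φ : Form k n) (x : Fin (n + 1) → K) :
    val (c • φ) x = algebraMap k K c * val φ x := by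
  unfold val
  rw [Finset.mul_sum]
  refine Finset.sum_congr rfl fun t _ => ?_
  rw [LinearMap.smul_apply, smul_eq_mul, map_mul]
  ring

/-- Fermat's last theorem for polynomials in several variables -/
theorem mv_flt [CharZero k] {σ : Type} (hm : 3 ≤ m) {a b d : MvPolynomial σ k} (ha : a ≠ 0)
    (hb : b ≠ 0) (hd : d ≠ 0) (h : a ^ m + b ^ m = d ^ m) :
    ∃ c : k, a = MvPolynomial.C c * d := by
  obtain ⟨A, hA⟩ : ∃ A : σ → k, MvPolynomial.eval A (a * b * d) ≠ 0 := by
    by_contra hcon
    push Not at hcon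
    exact mul_ne_zero (mul_ne_zero ha hb) hd
      (MvPolynomial.funext fun A => by rw [hcon A, map_zero])
  rw [map_mul, map_mul] at hA
  have hAd := right_ne_zero_of_mul hA
  have hAa := left_ne_zero_of_mul (left_ne_zero_of_mul hA)
  have hAb := right_ne_zero_of_mul (left_ne_zero_of_mul hA)
  refine ⟨MvPolynomial.eval A a / MvPolynomial.eval A d, MvPolynomial.funext fun B => ?_⟩
  let φ : MvPolynomial σ k →ₐ[k] Polynomial k :=
    MvPolynomial.aeval fun i => Polynomial.C (A i) + Polynomial.X * Polynomial.C (B i - A i)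
  have h0 : ∀ p, (φ p).eval 0 = MvPolynomial.eval A p := by
    intro p
    have e : (Polynomial.evalRingHom 0).comp φ.toRingHom = MvPolynomial.eval A := by
      apply MvPolynomial.ringHom_ext
      · intro c
        simp [φ]
      · intro i
        simp [φ]
    exact congrArg (fun f => f p) e
  have h1 : ∀ p, (φ p).eval 1 = MvPolynomial.eval B p := by
    intro p
    have e : (Polynomial.evalRingHom 1).comp φ.toRingHom = MvPolynomial.eval B := by
      apply MvPolynomial.ringHom_ext
      · intro c
        simp [φ]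
      · intro i
        simp [φ]
    exact congrArg (fun f => f p) e
  have hne : ∀ p, MvPolynomial.eval A p ≠ 0 → φ p ≠ 0 := by
    intro p hp h2
    apply hp
    rw [← h0, h2, Polynomial.eval_zero]
  have hflt := fermatLastTheoremWith'_polynomial (k := k) hm
    (by exact_mod_cast (by omega : m ≠ 0)) (φ a) (φ b) (φ d) (hne a hAa) (hne b hAb) (hne d hAd)
    (by rw [← map_pow, ← map_pow, ← map_pow, ← map_add, h])
  obtain ⟨D, a', b', c', ⟨e1, -, e3⟩, u1, -, u3⟩ := hflt
  obtain ⟨α, hα, rfl⟩ := Polynomial.isUnit_iff.1 u1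
  obtain ⟨γ, hγ, rfl⟩ := Polynomial.isUnit_iff.1 u3
  have key : ∀ z : k, (φ a).eval z * γ = (φ d).eval z * α := by
    intro z
    rw [e1, e3]
    simp only [Polynomial.eval_mul, Polynomial.eval_C]
    ring
  have k0 := key 0
  have k1 := key 1
  rw [h0, h0] at k0
  rw [h1, h1] at k1
  have hγ0 : γ ≠ 0 := hγ.ne_zero
  rw [map_mul, MvPolynomial.eval_C]
  have e4 : MvPolynomial.eval A a / MvPolynomial.eval A d = α / γ := by
    rw [div_eq_div_iff hAd hγ0, k0]
    ring
  rw [e4, div_mul_eq_mul_div, eq_div_iff hγ0, k1]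
  ring

/-- the Fermat equation in a field contained in a field of rational functions -/
theorem fermat_const [CharZero k] (hm : 3 ≤ m) (hU : Unirational k K) {u w : K} (hu : u ≠ 0)
    (hw : w ≠ 0) (h : u ^ m + w ^ m = 1) : ∃ c : k, u = algebraMap k K c := by
  obtain ⟨F, _, _, ⟨σ, -, t, ht, htop⟩, ⟨f⟩⟩ := hU
  have hrep : ∀ z : F, ∃ p q : MvPolynomial σ k, q ≠ 0 ∧
      z * MvPolynomial.aeval t q = MvPolynomial.aeval t p := by
    intro z
    have hz : z ∈ IntermediateField.adjoin k (Set.range t) := by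
      rw [htop]
      exact IntermediateField.mem_top
    obtain ⟨p, q, hpq⟩ := (IntermediateField.mem_adjoin_range_iff k t z).1 hz
    by_cases hq : MvPolynomial.aeval t q = 0
    · refine ⟨0, 1, one_ne_zero, ?_⟩
      rw [hpq, hq, div_zero, zero_mul, map_zero]
    · refine ⟨p, q, fun h => hq (by rw [h, map_zero]), ?_⟩
      rw [hpq, div_mul_cancel₀ _ hq]
  obtain ⟨p1, q1, hq1, e1⟩ := hrep (f u)
  obtain ⟨p2, q2, hq2, e2⟩ := hrep (f w)
  have hinj : Function.Injective (MvPolynomial.aeval t : MvPolynomial σ k →ₐ[k] F) := ht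
  have hne : ∀ p : MvPolynomial σ k, p ≠ 0 → MvPolynomial.aeval t p ≠ 0 := fun p hp h =>
    hp (hinj (by rw [h, map_zero]))
  have hfu : f u ≠ 0 := by
    rw [Ne, map_eq_zero]
    exact hu
  have hfw : f w ≠ 0 := by
    rw [Ne, map_eq_zero]
    exact hw
  have hp1 : p1 ≠ 0 := by
    rintro rfl
    rw [map_zero] at e1
    exact mul_ne_zero hfu (hne _ hq1) e1
  have hp2 : p2 ≠ 0 := by
    rintro rfl
    rw [map_zero] at e2
    exact mul_ne_zero hfw (hne _ hq2) e2
  have hF : f u ^ m + f w ^ m = 1 := by rw [← map_pow, ← map_pow, ← map_add, h, map_one]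
  have hpoly : (p1 * q2) ^ m + (p2 * q1) ^ m = (q1 * q2) ^ m := by
    apply hinj
    simp only [map_add, map_pow, map_mul]
    rw [← e1, ← e2]
    linear_combination (MvPolynomial.aeval t q1 * MvPolynomial.aeval t q2) ^ m * hF
  obtain ⟨c, hc⟩ := mv_flt hm (mul_ne_zero hp1 hq2) (mul_ne_zero hp2 hq1) (mul_ne_zero hq1 hq2)
    hpoly
  refine ⟨c, f.toRingHom.injective ?_⟩
  change f u = f (algebraMap k K c)
  rw [AlgHom.commutes]
  have h3 := congrArg (MvPolynomial.aeval t) hc
  rw [map_mul, map_mul, map_mul, MvPolynomial.aeval_C, ← e1] at h3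
  have h4 : MvPolynomial.aeval t q1 * MvPolynomial.aeval t q2 ≠ 0 :=
    mul_ne_zero (hne _ hq1) (hne _ hq2)
  apply mul_right_cancel₀ h4
  rw [← h3]
  ring

/-- **Unirational Kummer covers.** -/
theorem indep_of_unirational [CharZero k] [IsAlgClosed k] (hm : 3 ≤ m)
    (hℓ : ReflectionArrangement ℓ) (hK : FunctionField ℓ m x y) (hU : Unirational k K) :
    LinearIndependent k ℓ := by
  classical
  by_contra hcon
  choose a ha hrefl using hℓ.refl
  obtain ⟨i, j, hij, hval⟩ : ∃ i j, i ≠ j ∧ ℓ j (a i) ≠ 0 := by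
    by_contra h1
    push Not at h1
    apply hcon
    rw [linearIndependent_iff']
    intro s g hg i hi
    have h2 := congrArg (fun φ : Form k n => φ (a i)) hg
    simp only [LinearMap.sum_apply, LinearMap.smul_apply, smul_eq_mul, LinearMap.zero_apply] at h2
    rw [Finset.sum_eq_single_of_mem i hi fun j _ hji => by rw [h1 i j (Ne.symm hji), mul_zero]] at h2
    exact (mul_eq_zero.1 h2).resolve_right (ha i)
  obtain ⟨h, c, hc, hh⟩ := hrefl i j
  have hhj : h ≠ j := by
    rintro rfl
    refine hℓ.distinct i h hij ((1 - c) / ℓ h (a i)) ?_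
    have h1 : ℓ h (a i) • ℓ i = (1 - c) • ℓ h := by
      refine LinearMap.ext fun v => ?_
      have h2 := congrArg (fun φ : Form k n => φ v) hh
      simp only [LinearMap.sub_apply, LinearMap.smul_apply, smul_eq_mul] at h2 ⊢
      linear_combination (-1 : k) * h2
    rw [div_eq_inv_mul, mul_smul, ← h1, smul_smul, inv_mul_cancel₀ hval, one_smul]
  have hm0 : m ≠ 0 := by omega
  have hne : ∀ t, y t ≠ 0 := by
    intro t ht
    have h1 := hK.eqn t
    rw [ht, zero_pow hm0] at h1
    have h2 := hK.generic _ h1.symm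
    apply ha t
    rw [h2, LinearMap.zero_apply]
  have hrel : y j ^ m = algebraMap k K c * y h ^ m + algebraMap k K (ℓ j (a i)) * y i ^ m := by
    rw [hK.eqn, hK.eqn, hK.eqn, ← val_smul, ← val_smul, ← hh, val_sub]
    ring
  obtain ⟨γ, hγ⟩ := IsAlgClosed.exists_pow_nat_eq c (Nat.pos_of_ne_zero hm0)
  obtain ⟨β, hβ⟩ := IsAlgClosed.exists_pow_nat_eq (ℓ j (a i)) (Nat.pos_of_ne_zero hm0)
  have hγ0 : γ ≠ 0 := by
    rintro rfl
    rw [zero_pow hm0] at hγ
    exact hc hγ.symm
  have hβ0 : β ≠ 0 := by
    rintro rfl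
    rw [zero_pow hm0] at hβ
    exact hval hβ.symm
  have hmap : ∀ z : k, z ≠ 0 → algebraMap k K z ≠ 0 := fun z hz h => hz (by
    rw [← map_zero (algebraMap k K)] at h
    exact (algebraMap k K).injective h)
  have hfer : (algebraMap k K γ * y h / y j) ^ m + (algebraMap k K β * y i / y j) ^ m = 1 := by
    rw [div_pow, div_pow, mul_pow, mul_pow, ← map_pow, ← map_pow, hγ, hβ, ← add_div, ← hrel]
    exact div_self (pow_ne_zero _ (hne j))
  obtain ⟨e, he⟩ := fermat_const hm hU
    (div_ne_zero (mul_ne_zero (hmap γ hγ0) (hne h)) (hne j))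
    (div_ne_zero (mul_ne_zero (hmap β hβ0) (hne i)) (hne j)) hfer
  have h5 : algebraMap k K γ * y h = algebraMap k K e * y j := by
    rw [div_eq_iff (hne j)] at he
    exact he
  have h6 : algebraMap k K (γ ^ m) * val (ℓ h) x = algebraMap k K (e ^ m) * val (ℓ j) x := by
    rw [← hK.eqn, ← hK.eqn, map_pow, map_pow, ← mul_pow, ← mul_pow, h5]
  rw [← val_smul, ← val_smul, ← sub_eq_zero, ← val_sub] at h6
  have h7 := sub_eq_zero.1 (hK.generic _ h6)
  refine hℓ.distinct h j hhj ((γ ^ m)⁻¹ * e ^ m) ?_
  rw [mul_smul, ← h7, smul_smul, inv_mul_cancel₀ (pow_ne_zero _ hγ0), one_smul]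

/-- **Rational Kummer covers.** -/
theorem rational_of_indep (hℓ : ReflectionArrangement ℓ) (hK : FunctionField ℓ m x y)
    (hI : LinearIndependent k ℓ) (hm : m ≠ 0) : Rational k K := by
  classical
  have hr : r ≤ n + 1 := by
    have h1 := hI.fintype_card_le_finrank
    rw [Fintype.card_fin] at h1
    have h2 : Module.finrank k (Form k n) = n + 1 := by
      have := Subspace.dual_finrank_eq (K := k) (V := Fin (n + 1) → k)
      rw [Module.finrank_fin_fun] at this
      exact this
    rwa [h2] at h1
  have hr1 : 0 < r := by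
    by_contra h
    have hr0 : r = 0 := by omega
    subst hr0
    have h1 := hℓ.essential (fun _ => 1) fun i => i.elim0
    exact one_ne_zero (congrFun h1 0)
  let j0 : Fin r := ⟨0, hr1⟩
  have hy0 : y j0 ≠ 0 := by
    intro ht
    have h1 := hK.eqn j0
    rw [ht, zero_pow hm] at h1
    have h2 := hK.generic _ h1.symm
    exact hI.ne_zero j0 h2
  let t : {j : Fin r // j ≠ j0} → K := fun j => y j.1 / y j0
  have hmem : ∀ j, y j / y j0 ∈ IntermediateField.adjoin k (Set.range t) := by
    intro j
    by_cases hj : j = j0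
    · rw [hj, div_self hy0]
      exact one_mem _
    · exact IntermediateField.subset_adjoin _ _ ⟨⟨j, hj⟩, rfl⟩
  have htop : IntermediateField.adjoin k (Set.range t) = ⊤ := by
    rw [← top_le_iff, ← hK.gen, IntermediateField.adjoin_le_iff]
    rintro _ ⟨i, j, rfl⟩
    have e : y i / y j = (y i / y j0) / (y j / y j0) := by
      rw [div_div_div_cancel_right₀ hy0]
    rw [e]
    exact div_mem (hmem i) (hmem j)
  have halg : Algebra.IsAlgebraic (Algebra.adjoin k (Set.range t)) K := by
    refine ⟨fun z => ?_⟩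
    have hz : z ∈ IntermediateField.adjoin k (Set.range t) := by
      rw [htop]
      exact IntermediateField.mem_top
    obtain ⟨p, q, hpq⟩ := (IntermediateField.mem_adjoin_range_iff k t z).1 hz
    have hmem' : ∀ p : MvPolynomial {j : Fin r // j ≠ j0} k,
        MvPolynomial.aeval t p ∈ Algebra.adjoin k (Set.range t) := fun p => by
      rw [Algebra.adjoin_range_eq_range_aeval]
      exact ⟨p, rfl⟩
    rw [hpq]
    have i1 : IsAlgebraic (Algebra.adjoin k (Set.range t)) (MvPolynomial.aeval t p) :=
      isAlgebraic_algebraMap (⟨_, hmem' p⟩ : Algebra.adjoin k (Set.range t))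
    have i2 : IsAlgebraic (Algebra.adjoin k (Set.range t)) (MvPolynomial.aeval t q) :=
      isAlgebraic_algebraMap (⟨_, hmem' q⟩ : Algebra.adjoin k (Set.range t))
    rw [div_eq_mul_inv]
    exact i1.mul i2.inv
  have hcard : Cardinal.lift.{0} (Cardinal.mk {j : Fin r // j ≠ j0}) ≤
      Cardinal.lift.{0} (Algebra.trdeg k K) := by
    rw [hK.dim, Cardinal.mk_fintype, Cardinal.lift_natCast, Cardinal.lift_natCast]
    have h1 : Fintype.card {j : Fin r // j ≠ j0} = r - 1 := by
      rw [Fintype.card_subtype_compl, Fintype.card_fin, Fintype.card_unique]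
    rw [h1]
    exact_mod_cast (by omega : r - 1 ≤ n)
  have hb := Algebra.IsAlgebraic.isTranscendenceBasis_of_lift_le_trdeg_of_finite k t hcard
  exact ⟨_, inferInstance, t, hb.1, htop⟩

/-- **Rationality of the Kummer covers along arrangements stable under reflections.** -/
theorem tfae [CharZero k] [IsAlgClosed k] (hm : 3 ≤ m) (hℓ : ReflectionArrangement ℓ)
    (hK : FunctionField ℓ m x y) : [Rational k K, Unirational k K, LinearIndependent k ℓ].TFAE := by
  tfae_have 1 → 2 := fun h => ⟨K, inferInstance, inferInstance, h, ⟨AlgHom.id k K⟩⟩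
  tfae_have 2 → 3 := fun h => indep_of_unirational hm hℓ hK h
  tfae_have 3 → 1 := fun h => rational_of_indep hℓ hK h (by omega)
  tfae_finish

end Pool.Agent.U431.RA.Uni
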